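import Pool.Agent.X224.HR.Top
import Pool.Agent.Y579.HM.Lev
import Pool.Agent.Helper446.Comp

/-! The derived sets of the set of limits are arithmetical in the colouring. -/

set_option autoImplicit false

namespace Pool.Agent.X224.HR

open Filter Topology Set Pool.Agent.Y579.HM Pool.Agent.Helper446

variable {k : ℕ}

/-- the sums of the nonempty sublists -/
def ss (Y : List ℕ) : List ℕ :=
  Y.foldr (fun y l => y :: (l ++ l.map (fun s => y + s))) []

theorem ss_cons (y : ℕ) (Y : List ℕ) :
    ss (y :: Y) = y :: (ss Y ++ (ss Y).map (fun s => y + s)) := rfl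

theorem mem_ss {Y : List ℕ} {s : ℕ} :
    s ∈ ss Y ↔ ∃ l : List ℕ, l.Sublist Y ∧ l ≠ [] ∧ l.sum = s := by
  induction Y generalizing s with
  | nil =>
    constructor
    · intro h
      cases h
    · rintro ⟨l, h1, h2, -⟩
      exact absurd (List.sublist_nil.1 h1) h2
  | cons y Y ih =>
    rw [ss_cons, List.mem_cons, List.mem_append, List.mem_map]
    constructor
    · rintro (rfl | h | ⟨t, h, rfl⟩)
      · exact ⟨[s], by simp, by simp, by simp⟩
      · obtain ⟨l, h1, h2, h3⟩ := ih.1 h
        exact ⟨l, h1.cons _, h2, h3⟩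
      · obtain ⟨l, h1, h2, h3⟩ := ih.1 h
        exact ⟨y :: l, h1.cons_cons _, by simp, by simp [h3]⟩
    · rintro ⟨l, h1, h2, h3⟩
      rcases List.sublist_cons_iff.1 h1 with h4 | ⟨l', rfl, h4⟩
      · exact Or.inr (Or.inl (ih.2 ⟨l, h4, h2, h3⟩))
      · rw [List.sum_cons] at h3
        rcases l'.eq_nil_or_concat with h5 | ⟨a, b, h5⟩
        · left
          rw [h5] at h3
          simpa using h3.symm
        · right; right
          exact ⟨l'.sum, ih.2 ⟨l', h4, by rw [h5]; simp, rfl⟩, h3⟩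

theorem pr_ss : Primrec ss := by
  unfold ss
  refine Primrec.list_foldr (f := fun Y : List ℕ => Y) (g := fun _ => ([] : List ℕ))
    (h := fun _ (p : ℕ × List ℕ) => p.1 :: (p.2 ++ p.2.map (fun s => p.1 + s)))
    Primrec.id (Primrec.const []) ?_
  have e1 : Primrec fun x : List ℕ × ℕ × List ℕ => x.2.1 := Primrec.fst.comp Primrec.snd
  have e2 : Primrec fun x : List ℕ × ℕ × List ℕ => x.2.2 := Primrec.snd.comp Primrec.snd
  refine Primrec.list_cons.comp e1 (Primrec.list_append.comp e2 (Primrec.list_map e2 ?_))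
  exact Primrec.nat_add.comp (e1.comp Primrec.fst) Primrec.snd

theorem pr_fact : Primrec Nat.factorial := by
  have h : Primrec fun n : ℕ => (Nat.rec (motive := fun _ => ℕ) 1
      (fun n r => (n + 1) * r) n : ℕ) := by
    refine Primrec.nat_rec₁ (f := fun n r => (n + 1) * r) 1 ?_
    exact Primrec.nat_mul.comp (Primrec.succ.comp Primrec.fst) Primrec.snd
  refine h.of_eq fun n => ?_
  induction n with
  | zero => rfl
  | succ n ih =>
    rw [Nat.factorial_succ, ← ih]

section
variable {α : Type} [Primcodable α] {n : ℕ} {Z : Set ℕ}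

@[fun_prop] theorem css {f : α → List ℕ} (hf : Computable f) : Computable fun a => ss (f a) :=
  pr_ss.to_comp.comp hf

@[fun_prop] theorem cfact {f : α → ℕ} (hf : Computable f) :
    Computable fun a => (f a).factorial := pr_fact.to_comp.comp hf

@[fun_prop] theorem cmod {f g : α → ℕ} (hf : Computable f) (hg : Computable g) :
    Computable fun a => f a % g a := Primrec.nat_mod.to_comp.comp hf hg

theorem lev_eq {β : Type} [Primcodable β] [DecidableEq β] {f g : α → β} (hf : Computable f)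
    (hg : Computable g) : Lev Z n fun a => f a = g a := by
  have h : Computable fun p : β × β => decide (p.1 = p.2) := (Primrec.eq.decide).to_comp
  exact (Lev.of_comp (h.comp (hf.pair hg))).congr fun a => by simp

theorem lev_lt {f g : α → ℕ} (hf : Computable f)
    (hg : Computable g) : Lev Z n fun a => f a < g a := by
  have h : Computable fun p : ℕ × ℕ => decide (p.1 < p.2) := (Primrec.nat_lt.decide).to_comp
  exact (Lev.of_comp (h.comp (hf.pair hg))).congr fun a => by simp

end

/-- The graph of `c`, as a set of codes of pairs of natural numbers. -/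
def graph (c : ℕ → Fin k) : Set ℕ := {n | (c n.unpair.1 : ℕ) = n.unpair.2}

theorem lev_col {α : Type} [Primcodable α] (c : ℕ → Fin k) {f : α → ℕ} {g : α → Fin k}
    (hf : Computable f) (hg : Computable g) {n : ℕ} :
    Lev (graph c) n fun a => c (f a) = g a := by
  have h1 : Lev (graph c) 0 fun m : ℕ => m ∈ graph c := lev_iff.2 (LevN.orc Computable.id)
  have h2 : Computable fun a => Nat.pair (f a) (g a : ℕ) :=
    Primrec₂.natPair.to_comp.comp hf (Primrec.fin_val.to_comp.comp hg)
  refine ((h1.subst h2).mono (Nat.zero_le n)).congr fun a => ?_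
  show (c (Nat.pair (f a) (g a : ℕ)).unpair.1 : ℕ) = (Nat.pair (f a) (g a : ℕ)).unpair.2 ↔ _
  rw [Nat.unpair_pair]
  exact Fin.ext_iff.symm

/-- some point of the `d`-th derived set begins with `τ` -/
def R (c : ℕ → Fin k) (d : ℕ) (τ : List (Fin k)) : Prop := ∃ g ∈ D c d, Pre τ g

/-- `σ` is realised by sums -/
def Real' (c : ℕ → Fin k) (σ : List (Fin k)) (Y : List ℕ) : Prop :=
  Y.length = σ.length ∧ ∀ q : (ℕ × ℕ) × (ℕ × Fin k),
    (Y[q.1.1]? = some q.2.1 → 0 < q.2.1 ∧ q.2.1 % σ.length.factorial = 0) ∧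
    ((ss Y)[q.1.1]? = some q.2.1 → σ[q.1.2]? = some q.2.2 → c (q.1.2 + q.2.1) = q.2.2)

theorem real_iff {c : ℕ → Fin k} {σ : List (Fin k)} {Y : List ℕ} :
    Real' c σ Y ↔ Y.length = σ.length ∧ (∀ y ∈ Y, 0 < y ∧ σ.length.factorial ∣ y) ∧
      ∀ l : List ℕ, l.Sublist Y → l ≠ [] → ∀ x i, σ[x]? = some i → c (x + l.sum) = i := by
  unfold Real'
  refine and_congr_right fun _ => ⟨fun h => ⟨fun y hy => ?_, fun l hl hne x i hx => ?_⟩,
    fun h q => ⟨fun h1 => ?_, fun h1 h2 => ?_⟩⟩
  · obtain ⟨j, hj, rfl⟩ := List.getElem_of_mem hy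
    have h1 := (h ((j, 0), (Y[j], c 0))).1 (List.getElem?_eq_getElem hj)
    exact ⟨h1.1, Nat.dvd_of_mod_eq_zero h1.2⟩
  · have hm : l.sum ∈ ss Y := mem_ss.2 ⟨l, hl, hne, rfl⟩
    obtain ⟨j, hj, he⟩ := List.getElem_of_mem hm
    have h1 := (h ((j, x), (l.sum, i))).2 (by rw [← he]; exact List.getElem?_eq_getElem hj) hx
    exact h1
  · have h3 := h.1 _ (List.mem_of_getElem? h1)
    exact ⟨h3.1, Nat.mod_eq_zero_of_dvd h3.2⟩
  · obtain ⟨l, h3, h4, h5⟩ := mem_ss.1 (List.mem_of_getElem? h1)
    rw [← h5]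
    exact h.2 l h3 h4 _ _ h2

/-- the values below `m` can be realised -/
def Qm (c : ℕ → Fin k) (m : ℕ) (g : ℕ → Fin k) : Prop :=
  ∃ Y : List ℕ, Y.length = m ∧ (∀ y ∈ Y, 0 < y ∧ m.factorial ∣ y) ∧
    ∀ l : List ℕ, l.Sublist Y → l ≠ [] → ∀ x < m, c (x + l.sum) = g x

theorem Qm_anti {c : ℕ → Fin k} {m : ℕ} {g : ℕ → Fin k} (h : Qm c (m + 1) g) : Qm c m g := by
  obtain ⟨Y, h1, h2, h3⟩ := h
  refine ⟨Y.take m, by rw [List.length_take]; omega, fun y hy => ?_, fun l hl hne x hx =>
    h3 l (hl.trans (List.take_sublist _ _)) hne x (by omega)⟩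
  have h4 := h2 y (List.mem_of_mem_take hy)
  exact ⟨h4.1, dvd_trans (Nat.factorial_dvd_factorial (Nat.le_succ m)) h4.2⟩

theorem isClosed_Qm (c : ℕ → Fin k) (m : ℕ) : IsClosed {g | Qm c m g} := by
  have e : {g | Qm c m g} = {g : ℕ → Fin k | (fun i : Fin m => g i) ∈
      {h : Fin m → Fin k | ∃ Y : List ℕ, Y.length = m ∧ (∀ y ∈ Y, 0 < y ∧ m.factorial ∣ y) ∧
        ∀ l : List ℕ, l.Sublist Y → l ≠ [] → ∀ x : Fin m, c (x + l.sum) = h x}} := by
    ext g
    constructor
    · rintro ⟨Y, h1, h2, h3⟩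
      exact ⟨Y, h1, h2, fun l hl hne x => h3 l hl hne x x.2⟩
    · rintro ⟨Y, h1, h2, h3⟩
      exact ⟨Y, h1, h2, fun l hl hne x hx => h3 l hl hne ⟨x, hx⟩⟩
  rw [e]
  exact (isClosed_fin m _).1

theorem R_zero {c : ℕ → Fin k} {τ : List (Fin k)} :
    R c 0 τ ↔ ∀ M : ℕ, ∃ p : List (Fin k) × List ℕ, p.1.length = M ∧ Real' c (τ ++ p.1) p.2 := by
  constructor
  · rintro ⟨g, hg, hτ⟩ M
    obtain ⟨Y, h1, h2, h3⟩ := hg (τ.length + M)
    have hl : (τ ++ (List.range M).map (fun i => g (τ.length + i))).length = τ.length + M := by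
      simp
    refine ⟨((List.range M).map (fun i => g (τ.length + i)), Y), by simp, real_iff.2
      ⟨by rw [hl, h1], by rw [hl]; exact h2, fun l hl' hne x i hx => ?_⟩⟩
    obtain ⟨hx1, hx2⟩ := List.getElem?_eq_some_iff.1 hx
    rw [h3 l hl' hne x (by rw [hl] at hx1; exact hx1)]
    rcases lt_or_ge x τ.length with h4 | h4
    · rw [List.getElem?_append_left h4] at hx
      exact hτ x i hx
    · rw [← hx2, List.getElem_append_right h4]
      simp only [List.getElem_map, List.getElem_range]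
      congr 1
      omega
  · intro h
    have hne : ∀ M, ({g : ℕ → Fin k | Pre τ g} ∩ {g | Qm c (τ.length + M) g}).Nonempty := by
      intro M
      obtain ⟨⟨ρ, Y⟩, hρ, hY⟩ := h M
      simp only at hρ hY
      obtain ⟨h1, h2, h3⟩ := real_iff.1 hY
      have hl : (τ ++ ρ).length = τ.length + M := by rw [List.length_append, hρ]
      refine ⟨fun i => ((τ ++ ρ)[i]?).getD (c 0), fun i x hx => ?_, Y, by rw [h1, hl],
        by rw [← hl]; exact h2, fun l hl' hne x hx => ?_⟩
      · have hi := (List.getElem?_eq_some_iff.1 hx).1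
        simp only
        rw [List.getElem?_append_left hi, hx]
        rfl
      · have hx' : x < (τ ++ ρ).length := by rw [hl]; exact hx
        have h4 := List.getElem?_eq_getElem hx'
        rw [h3 l hl' hne x _ h4]
        simp only
        rw [h4]
        rfl
    obtain ⟨g, hg⟩ := IsCompact.nonempty_iInter_of_sequence_nonempty_isCompact_isClosed
      (fun M => {g : ℕ → Fin k | Pre τ g} ∩ {g | Qm c (τ.length + M) g})
      (fun M g hg => ⟨hg.1, Qm_anti hg.2⟩) hne
      (((isClopen_pre τ).1.inter (isClosed_Qm c _)).isCompact)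
      (fun M => (isClopen_pre τ).1.inter (isClosed_Qm c _))
    rw [mem_iInter] at hg
    refine ⟨g, ?_, (hg 0).1⟩
    rw [D_zero]
    intro m
    have h5 : ∀ j, Qm c (m + j) g → Qm c m g := by
      intro j
      induction j with
      | zero => exact fun h => h
      | succ j ih => exact fun h => ih (Qm_anti h)
    refine h5 τ.length ?_
    rw [add_comm]
    exact (hg m).2

theorem lev_zero (c : ℕ → Fin k) : Lev (graph c) 3 (R c 0) := by
  have h : Lev (graph c) 0 fun x : ((List (Fin k) × ℕ) × (List (Fin k) × List ℕ)) ×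
      ((ℕ × ℕ) × (ℕ × Fin k)) =>
      x.1.2.1.length = x.1.1.2 ∧ x.1.2.2.length = (x.1.1.1 ++ x.1.2.1).length ∧
      (x.1.2.2[x.2.1.1]? = some x.2.2.1 → 0 < x.2.2.1 ∧
        x.2.2.1 % (x.1.1.1 ++ x.1.2.1).length.factorial = 0) ∧
      ((ss x.1.2.2)[x.2.1.1]? = some x.2.2.1 → (x.1.1.1 ++ x.1.2.1)[x.2.1.2]? = some x.2.2.2 →
        c (x.2.1.2 + x.2.2.1) = x.2.2.2) := by
    refine Lev.and (lev_eq (by fun_prop) (by fun_prop)) (Lev.and
      (lev_eq (by fun_prop) (by fun_prop)) (Lev.and (Lev.imp (lev_eq (by fun_prop) (by fun_prop))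
        (Lev.and (lev_lt (by fun_prop) (by fun_prop)) (lev_eq (by fun_prop) (by fun_prop))))
        (Lev.imp (lev_eq (by fun_prop) (by fun_prop)) (Lev.imp
          (lev_eq (by fun_prop) (by fun_prop)) (lev_col c (by fun_prop) (by fun_prop))))))
  refine (((h.all).ex).all).congr fun τ => ?_
  rw [R_zero]
  refine forall_congr' fun M => exists_congr fun p => ?_
  simp only
  unfold Real'
  constructor
  · intro h1
    have h2 := h1 ((0, 0), (0, c 0))
    exact ⟨h2.1, h2.2.1, fun q => (h1 q).2.2⟩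
  · rintro ⟨h1, h2, h3⟩ q
    exact ⟨h1, h2, h3 q⟩

/-- the condition for the next derived set -/
def Many (c : ℕ → Fin k) (d : ℕ) (τ : List (Fin k)) (n : ℕ) (L : List (List (Fin k))) : Prop :=
  n ≤ L.length ∧ ∀ q : (ℕ × ℕ) × (List (Fin k) × List (Fin k)),
    L[q.1.1]? = some q.2.1 → R c d (τ ++ q.2.1) ∧
      (L[q.1.2]? = some q.2.2 → q.2.1.length = q.2.2.length ∧
        (q.2.1 = q.2.2 → q.1.1 = q.1.2))

theorem pre_append {τ ρ : List (Fin k)} {g : ℕ → Fin k} :
    Pre (τ ++ ρ) g ↔ Pre τ g ∧ ∀ i x, ρ[i]? = some x → g (τ.length + i) = x := by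
  constructor
  · intro h
    refine ⟨fun i x hx => h i x ?_, fun i x hx => h _ x ?_⟩
    · rw [List.getElem?_append_left (List.getElem?_eq_some_iff.1 hx).1]
      exact hx
    · rw [List.getElem?_append_right (Nat.le_add_right _ _)]
      simpa using hx
  · rintro ⟨h1, h2⟩ i x hx
    rcases lt_or_ge i τ.length with h4 | h4
    · rw [List.getElem?_append_left h4] at hx
      exact h1 i x hx
    · rw [List.getElem?_append_right h4] at hx
      have := h2 _ x hx
      rwa [Nat.add_sub_cancel' h4] at this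

theorem R_succ {c : ℕ → Fin k} {d : ℕ} {τ : List (Fin k)} :
    R c (d + 1) τ ↔ ∀ n : ℕ, ∃ L, Many c d τ n L := by
  classical
  constructor
  · rintro ⟨g, hg, hτ⟩ n
    rw [D_succ] at hg
    obtain ⟨t, ht1, ht2⟩ := (infinite_of_acc hg hτ).exists_subset_card_eq n
    -- the functions differ below `M`
    obtain ⟨M, hM⟩ : ∃ M : ℕ, ∀ a ∈ t, ∀ b ∈ t, (∀ x < M, a x = b x) → a = b := by
      have h1 : ∀ a b : ℕ → Fin k, ∃ x : ℕ, a x = b x → a = b := by
        intro a b
        by_cases hab : a = b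
        · exact ⟨0, fun _ => hab⟩
        · obtain ⟨x, hx⟩ := Function.ne_iff.1 hab
          exact ⟨x, fun h => absurd h hx⟩
      choose f hf using h1
      refine ⟨(t ×ˢ t).sup (fun p => f p.1 p.2) + 1, fun a ha b hb h => hf a b (h _ ?_)⟩
      exact Nat.lt_succ_of_le (Finset.le_sup (f := fun p : (ℕ → Fin k) × (ℕ → Fin k) => f p.1 p.2)
        (Finset.mk_mem_product ha hb))
    let ρ : (ℕ → Fin k) → List (Fin k) := fun h => (List.range M).map fun i => h (τ.length + i)
    have hρ : ∀ h, Pre τ h → Pre (τ ++ ρ h) h := by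
      intro h hh
      refine pre_append.2 ⟨hh, fun i x hx => ?_⟩
      simp only [ρ] at hx
      obtain ⟨h1, h2⟩ := List.getElem?_eq_some_iff.1 hx
      simpa using h2
    have hlen : ∀ h, (ρ h).length = M := fun h => by simp [ρ]
    have hinj : ∀ a ∈ t, ∀ b ∈ t, ρ a = ρ b → a = b := by
      intro a ha b hb hab
      have h1 := hρ a (ht1 ha).2
      have h2 := hρ b (ht1 hb).2
      rw [← hab] at h2
      refine hM a ha b hb fun x hx => ?_
      have hx' : x < (τ ++ ρ a).length := by rw [List.length_append, hlen]; omega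
      rw [h1 x _ (List.getElem?_eq_getElem hx'), h2 x _ (List.getElem?_eq_getElem hx')]
    refine ⟨t.toList.map ρ, by simp [ht2], ?_⟩
    rintro ⟨⟨i, j⟩, ⟨u, v⟩⟩ hi
    simp only at hi ⊢
    obtain ⟨hi1, hi2⟩ := List.getElem?_eq_some_iff.1 hi
    rw [List.getElem_map] at hi2
    rw [List.length_map] at hi1
    have hmem : t.toList[i] ∈ t := Finset.mem_toList.1 (List.getElem_mem hi1)
    refine ⟨⟨t.toList[i], (ht1 hmem).1, ?_⟩, fun hj => ?_⟩
    · rw [← hi2]
      exact hρ _ (ht1 hmem).2
    · obtain ⟨hj1, hj2⟩ := List.getElem?_eq_some_iff.1 hj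
      rw [List.getElem_map] at hj2
      rw [List.length_map] at hj1
      have hmem' : t.toList[j] ∈ t := Finset.mem_toList.1 (List.getElem_mem hj1)
      refine ⟨by rw [← hi2, ← hj2, hlen, hlen], fun huv => ?_⟩
      have h3 := hinj _ hmem _ hmem' (by rw [hi2, hj2, huv])
      exact (List.Nodup.getElem_inj_iff (Finset.nodup_toList t)).1 h3
  · intro h
    have hinf : (D c d ∩ {g | Pre τ g}).Infinite := by
      intro hfin
      obtain ⟨L, hL1, hL2⟩ := h (hfin.toFinset.card + 1)
      have h1 : ∀ i : Fin (hfin.toFinset.card + 1), ∃ g ∈ D c d,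
          Pre (τ ++ L[(i : ℕ)]'(by have := i.2; omega)) g := by
        intro i
        have hi : (i : ℕ) < L.length := by have := i.2; omega
        exact (hL2 ((i, i), (L[(i : ℕ)], L[(i : ℕ)])) (List.getElem?_eq_getElem hi)).1
      choose f hf1 hf2 using h1
      have hinj : Function.Injective f := by
        intro i j hij
        have hi : (i : ℕ) < L.length := by have := i.2; omega
        have hj : (j : ℕ) < L.length := by have := j.2; omega
        obtain ⟨h3, h4⟩ := (hL2 ((i, j), (L[(i : ℕ)], L[(j : ℕ)]))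
          (List.getElem?_eq_getElem hi)).2 (List.getElem?_eq_getElem hj)
        simp only at h3 h4
        refine Fin.ext (h4 ?_)
        refine List.ext_getElem h3 fun a ha hb => ?_
        have h5 := (pre_append.1 (hf2 i)).2 a _ (List.getElem?_eq_getElem ha)
        have h6 := (pre_append.1 (hf2 j)).2 a _ (List.getElem?_eq_getElem hb)
        rw [← h5, ← h6, hij]
      have h7 : ∀ i, f i ∈ hfin.toFinset := fun i =>
        hfin.mem_toFinset.2 ⟨hf1 i, (pre_append.1 (hf2 i)).1⟩
      have h8 := Finset.card_le_card_of_injOn (s := (Finset.univ : Finset (Fin _))) f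
        (fun i _ => h7 i) (fun a _ b _ hab => hinj hab)
      rw [Finset.card_univ, Fintype.card_fin] at h8
      omega
    obtain ⟨g, hg1, hg2⟩ := acc_of_infinite hinf
    exact ⟨g, by rw [D_succ]; exact hg1, hg2⟩

theorem lev_R (c : ℕ → Fin k) (d : ℕ) : Lev (graph c) (3 * d + 3) (R c d) := by
  induction d with
  | zero => exact lev_zero c
  | succ d ih =>
    have h : Lev (graph c) (3 * d + 3) fun x : ((List (Fin k) × ℕ) × List (List (Fin k))) ×
        ((ℕ × ℕ) × (List (Fin k) × List (Fin k))) =>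
        (x.1.1.2 < x.1.2.length + 1) ∧ (x.1.2[x.2.1.1]? = some x.2.2.1 →
          R c d (x.1.1.1 ++ x.2.2.1) ∧
          (x.1.2[x.2.1.2]? = some x.2.2.2 → x.2.2.1.length = x.2.2.2.length ∧
            (x.2.2.1 = x.2.2.2 → x.2.1.1 = x.2.1.2))) := by
      refine Lev.and (lev_lt (by fun_prop) (by fun_prop)) (Lev.imp
        (lev_eq (by fun_prop) (by fun_prop)) (Lev.and (ih.subst (by fun_prop)) (Lev.imp
          (lev_eq (by fun_prop) (by fun_prop)) (Lev.and (lev_eq (by fun_prop) (by fun_prop))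
            (Lev.imp (lev_eq (by fun_prop) (by fun_prop))
              (lev_eq (by fun_prop) (by fun_prop)))))))
    refine (((h.all).ex).all).congr fun τ => ?_
    rw [R_succ]
    refine forall_congr' fun n => exists_congr fun L => ?_
    simp only
    unfold Many
    constructor
    · intro h1
      exact ⟨Nat.lt_succ_iff.1 (h1 ((0, 0), ([], []))).1, fun q => (h1 q).2⟩
    · rintro ⟨h1, h2⟩ q
      exact ⟨Nat.lt_succ_iff.2 h1, h2 q⟩

/-- an isolated point of a derived set is arithmetical in the colouring -/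
theorem lev_point {c g : ℕ → Fin k} {d : ℕ} (h1 : g ∈ D c d) (h2 : g ∉ D c (d + 1)) :
    Lev (graph c) (3 * d + 4) fun p : ℕ × Fin k => g p.1 = p.2 := by
  rw [D_succ] at h2
  obtain ⟨m, hm⟩ := isolated h2
  obtain ⟨τ, hτ⟩ : ∃ τ : List (Fin k), τ = (List.range m).map g := ⟨_, rfl⟩
  have hpre : ∀ h : ℕ → Fin k, Pre τ h ↔ ∀ i < m, h i = g i := by
    intro h
    rw [hτ]
    constructor
    · intro hh i hi
      exact hh i _ (by rw [List.getElem?_map, List.getElem?_range hi]; rfl)
    · intro hh i x hx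
      obtain ⟨h3, h4⟩ := List.getElem?_eq_some_iff.1 hx
      have h5 : i < m := by simpa using h3
      rw [hh i h5, ← h4]
      simp
  have h : Lev (graph c) (3 * d + 3) fun x : (ℕ × Fin k) × List (Fin k) =>
      (τ ++ x.2)[x.1.1]? = some x.1.2 ∧ R c d (τ ++ x.2) :=
    Lev.and (lev_eq (by fun_prop) (by fun_prop)) ((lev_R c d).subst (by fun_prop))
  refine h.ex.congr ?_
  rintro ⟨x, i⟩
  simp only
  constructor
  · rintro ⟨ρ, h3, f, h4, h5⟩
    have h6 : f = g := hm f h4 ((hpre f).1 (pre_append.1 h5).1)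
    rw [← h6]
    exact h5 x i h3
  · intro h3
    refine ⟨(List.range (x + 1)).map fun i => g (τ.length + i), ?_, g, h1, ?_⟩
    · rcases lt_or_ge x τ.length with h4 | h4
      · rw [List.getElem?_append_left h4, ← h3, List.getElem?_eq_getElem h4]
        congr 1
        exact ((hpre g).2 (fun _ _ => rfl) x _ (List.getElem?_eq_getElem h4)).symm
      · rw [List.getElem?_append_right h4, List.getElem?_map, List.getElem?_range (by omega),
          ← h3]
        simp only [Option.map_some, Option.some.injEq]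
        congr 1
        omega
    · refine pre_append.2 ⟨(hpre g).2 fun _ _ => rfl, fun i x hx => ?_⟩
      obtain ⟨h4, h5⟩ := List.getElem?_eq_some_iff.1 hx
      simpa using h5

end Pool.Agent.X224.HR
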