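import Pool.Agent.X224.HR.Main

/-! A computable colouring whose set of limits is infinite, of rank two and of infinite Littlestone
dimension. -/

set_option autoImplicit false

namespace Pool.Agent.X224.HR

open Filter Topology Set Pool.Agent.Helper446

/-- The colour of `z` tells if `2 ^ f` divides `z`, where `f` depends on the length of `z`. -/
def cc (z : ℕ) : Fin 2 := if 2 ^ (Nat.log 2 z).unpair.1 ∣ z then 0 else 1

/-- the limits -/
def thr (f : ℕ) (x : ℕ) : Fin 2 := if 2 ^ f ∣ x then 0 else 1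

theorem log_top {M a r : ℕ} (hM : 0 < M) (hr : r < 2 ^ a) :
    Nat.log 2 (M * 2 ^ a + r) = Nat.log 2 M + a := by
  rw [Nat.log_eq_iff (Or.inr ⟨by norm_num, by positivity⟩)]
  have h1 := Nat.pow_log_le_self 2 hM.ne'
  have h2 := Nat.lt_pow_succ_log_self (b := 2) (by norm_num) M
  constructor
  · rw [pow_add]
    have := Nat.mul_le_mul_right (2 ^ a) h1
    omega
  · have e : 2 ^ (Nat.log 2 M + a + 1) = 2 ^ (Nat.log 2 M + 1) * 2 ^ a := by ring
    rw [e]
    have h3 : (M + 1) * 2 ^ a ≤ 2 ^ (Nat.log 2 M + 1) * 2 ^ a := Nat.mul_le_mul_right _ h2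
    rw [Nat.add_mul, Nat.one_mul] at h3
    omega

theorem thr_mem (f : ℕ) : thr f ∈ IPLimits cc := by
  intro m
  have main : ∀ n : ℕ, ∃ Y : List ℕ, Y.length = n ∧
      (∀ y ∈ Y, 0 < y ∧ m.factorial ∣ y ∧ 2 ^ f ∣ y) ∧
      ∀ l : List ℕ, l.Sublist Y → l ≠ [] → ∀ x < m, (Nat.log 2 (x + l.sum)).unpair.1 = f := by
    intro n
    induction n with
    | zero =>
      exact ⟨[], rfl, by simp, fun l hl hne => absurd (List.sublist_nil.1 hl) hne⟩
    | succ n ih =>
      obtain ⟨Y, h1, h2, h3⟩ := ih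
      obtain ⟨L, hL⟩ : ∃ L, L = Nat.log 2 m.factorial := ⟨_, rfl⟩
      obtain ⟨t, ht⟩ : ∃ t, t = L + f + (m + Y.sum) + 1 := ⟨_, rfl⟩
      have hp := Nat.right_le_pair f t
      obtain ⟨a, ha⟩ : ∃ a, a + L = Nat.pair f t := ⟨Nat.pair f t - L, by omega⟩
      have h4 : m + Y.sum < 2 ^ a := lt_of_le_of_lt (by omega) (Nat.lt_two_pow_self (n := a))
      refine ⟨(m.factorial * 2 ^ a) :: Y, by simp [h1], ?_, ?_⟩
      · intro y hy
        rcases List.mem_cons.1 hy with rfl | hy
        · exact ⟨Nat.mul_pos m.factorial_pos (by positivity), Dvd.intro _ rfl,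
            dvd_mul_of_dvd_right (pow_dvd_pow 2 (by omega)) _⟩
        · exact h2 y hy
      · intro l hl hne x hx
        rcases List.sublist_cons_iff.1 hl with h7 | ⟨l', rfl, h7⟩
        · exact h3 l h7 hne x hx
        · have h8 : l'.sum ≤ Y.sum := h7.sum_le_sum (fun _ _ => Nat.zero_le _)
          have e : x + (m.factorial * 2 ^ a :: l').sum = m.factorial * 2 ^ a + (x + l'.sum) := by
            rw [List.sum_cons]; ring
          rw [e, log_top m.factorial_pos (by omega), ← hL, add_comm L a, ha, Nat.unpair_pair]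
  obtain ⟨Y, h1, h2, h3⟩ := main m
  refine ⟨Y, h1, fun y hy => ⟨(h2 y hy).1, (h2 y hy).2.1⟩, fun l hl hne x hx => ?_⟩
  have h4 : 2 ^ f ∣ l.sum := List.dvd_sum fun y hy => (h2 y (hl.subset hy)).2.2
  unfold cc thr
  rw [h3 l hl hne x hx]
  simp only [Nat.dvd_add_left h4]

theorem thr_inj {f f' : ℕ} (h : f < f') : thr f (2 ^ f) = 0 ∧ thr f' (2 ^ f) = 1 := by
  unfold thr
  rw [if_pos (dvd_refl _), if_neg]
  · exact ⟨rfl, rfl⟩
  · intro h1
    have := Nat.pow_dvd_pow_iff_le_right (x := 2) (by norm_num) |>.1 h1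
    omega

theorem thr_ne {f f' : ℕ} (h : f ≠ f') : thr f ≠ thr f' := by
  intro he
  rcases lt_or_gt_of_ne h with h1 | h1
  · have := thr_inj h1
    rw [he, this.2] at this
    exact absurd this.1 (by decide)
  · have := thr_inj h1
    rw [← he, this.2] at this
    exact absurd this.1 (by decide)

theorem infinite_limits : (IPLimits cc).Infinite :=
  Set.infinite_of_injective_forall_mem (f := thr) (fun _ _ h => by
    by_contra hne
    exact thr_ne hne h) thr_mem

/-- values of a limit at positive numbers -/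
theorem limit_form {g : ℕ → Fin 2} (hg : g ∈ IPLimits cc) (m : ℕ) :
    ∃ s f : ℕ, 2 ^ m ∣ s ∧ cc s = g 0 ∧ (2 ^ f ∣ s → g 0 = 0) ∧
      ∀ x, 0 < x → x < m → (g x = 0 ↔ 2 ^ f ∣ x) := by
  obtain ⟨Y, h1, h2, h3⟩ := hg (2 ^ m)
  have hpos : 0 < 2 ^ m := by positivity
  obtain ⟨s, hs⟩ := List.exists_mem_of_length_pos (show 0 < Y.length by omega)
  obtain ⟨hs1, hs2⟩ := h2 s hs
  have h4 : 2 ^ m ∣ s := dvd_trans (Nat.dvd_factorial hpos le_rfl) hs2
  have h5 : ∀ x < 2 ^ m, cc (x + s) = g x := by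
    intro x hx
    have := h3 [s] (List.singleton_sublist.2 hs) (by simp) x hx
    simpa using this
  have h0 : cc s = g 0 := by simpa using h5 0 hpos
  refine ⟨s, (Nat.log 2 s).unpair.1, h4, h0, fun h => ?_, fun x hx hxm => ?_⟩
  · rw [← h0]
    unfold cc
    rw [if_pos h]
  · have hx2 : x < 2 ^ m := hxm.trans (Nat.lt_two_pow_self)
    rw [← h5 x hx2]
    obtain ⟨q, rfl⟩ := h4
    have hq : 0 < q := Nat.pos_of_mul_pos_left (by rwa [mul_comm] at hs1)
    have e1 : Nat.log 2 (x + 2 ^ m * q) = Nat.log 2 (2 ^ m * q) := by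
      have e2 : x + 2 ^ m * q = q * 2 ^ m + x := by ring
      have e3 : 2 ^ m * q = q * 2 ^ m + 0 := by ring
      rw [e2, e3, log_top hq hx2, log_top hq hpos]
    unfold cc
    rw [e1]
    obtain ⟨f, hf⟩ : ∃ f, f = (Nat.log 2 (2 ^ m * q)).unpair.1 := ⟨_, rfl⟩
    rw [← hf]
    have h6 : 2 ^ f ∣ x + 2 ^ m * q ↔ 2 ^ f ∣ x := by
      rcases le_total f m with h7 | h7
      · exact Nat.dvd_add_left ((pow_dvd_pow 2 h7).mul_right q)
      · have h8 : ∀ z, 2 ^ f ∣ z → 2 ^ m ∣ z := fun z hz => (pow_dvd_pow 2 h7).trans hz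
        constructor
        · intro h9
          have h10 := (Nat.dvd_add_left (Dvd.intro q rfl)).1 (h8 _ h9)
          exact absurd (Nat.le_of_dvd hx h10) (by omega)
        · intro h9
          exact absurd (Nat.le_of_dvd hx (h8 _ h9)) (by omega)
    by_cases h7 : 2 ^ f ∣ x + 2 ^ m * q
    · rw [if_pos h7]
      simp [h6.1 h7]
    · rw [if_neg h7]
      simp only [Fin.isValue, one_ne_zero, false_iff]
      exact fun h => h7 (h6.2 h)

theorem fin2 {a b : Fin 2} (h : a = 0 ↔ b = 0) : a = b := by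
  revert h
  revert a b
  decide

/-- a limit is a threshold function or constant -/
theorem limit_cases {g : ℕ → Fin 2} (hg : g ∈ IPLimits cc) :
    (∃ f, g = thr f) ∨ ∀ x, 0 < x → g x = 1 := by
  by_cases hex : ∃ x, 0 < x ∧ g x = 0
  · left
    obtain ⟨x0, hx0, hx1⟩ := hex
    obtain ⟨s0, f, -, -, -, hf⟩ := limit_form hg (x0 + 1)
    have h1 : 2 ^ f ∣ x0 := (hf x0 hx0 (by omega)).1 hx1
    have h2 : 2 ^ f ≤ x0 := Nat.le_of_dvd hx0 h1
    -- the same exponent at all levels
    have h3 : ∀ m, x0 < m → ∀ f', (∀ x, 0 < x → x < m → (g x = 0 ↔ 2 ^ f' ∣ x)) → f' = f := by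
      intro m hm f' hf'
      have h4 : 2 ^ f' ∣ 2 ^ f := (hf' (2 ^ f) (by positivity) (by omega)).1
        ((hf (2 ^ f) (by positivity) (by omega)).2 dvd_rfl)
      have h5 : f' ≤ f := (Nat.pow_dvd_pow_iff_le_right (by norm_num)).1 h4
      have h6 : 2 ^ f' ≤ 2 ^ f := Nat.pow_le_pow_right (by norm_num) h5
      have h7 : 2 ^ f ∣ 2 ^ f' := (hf (2 ^ f') (by positivity) (by omega)).1
        ((hf' (2 ^ f') (by positivity) (by omega)).2 dvd_rfl)
      have h8 : f ≤ f' := (Nat.pow_dvd_pow_iff_le_right (by norm_num)).1 h7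
      omega
    refine ⟨f, funext fun x => fin2 ?_⟩
    obtain ⟨s, f', h4, h5, h6, h7⟩ := limit_form hg (x + x0 + f + 1)
    have h8 : f' = f := h3 _ (by omega) f' h7
    subst h8
    rcases Nat.eq_zero_or_pos x with h9 | h9
    · subst h9
      have h10 : g 0 = 0 := h6 (dvd_trans (pow_dvd_pow 2 (by omega)) h4)
      simp [h10, thr]
    · rw [h7 x h9 (by omega)]
      unfold thr
      by_cases h11 : 2 ^ f' ∣ x
      · simp [h11]
      · simp [h11]
  · right
    intro x hx
    push Not at hex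
    have h1 := hex x hx
    have h2 : ∀ a : Fin 2, a ≠ 0 → a = 1 := by decide
    exact h2 _ h1

theorem D_one {g : ℕ → Fin 2} (hg : g ∈ D cc 1) : ∀ x, 0 < x → g x = 1 := by
  have hg0 : g ∈ IPLimits cc := D_anti cc 0 hg
  rcases limit_cases hg0 with ⟨f, rfl⟩ | h
  · exfalso
    rw [D_succ] at hg
    obtain ⟨τ, hτ⟩ : ∃ τ : List (Fin 2), τ = (List.range (2 ^ f + 1)).map (thr f) := ⟨_, rfl⟩
    have hpre : ∀ h : ℕ → Fin 2, Pre τ h → ∀ i < 2 ^ f + 1, h i = thr f i := by
      intro h hh i hi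
      rw [hτ] at hh
      exact hh i _ (by rw [List.getElem?_map, List.getElem?_range hi]; rfl)
    have hτg : Pre τ (thr f) := by
      rw [hτ]
      intro i x hx
      obtain ⟨h3, h4⟩ := List.getElem?_eq_some_iff.1 hx
      simpa using h4
    refine infinite_of_acc hg hτg ((Set.finite_singleton (thr f)).subset ?_)
    rintro h ⟨hh1, hh2⟩
    rw [mem_singleton_iff]
    have h5 := hpre h hh2 (2 ^ f) (by omega)
    rcases limit_cases hh1 with ⟨f', rfl⟩ | h6
    · rcases lt_trichotomy f f' with h7 | h7 | h7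
      · have := thr_inj h7
        rw [this.1, this.2] at h5
        exact absurd h5 (by decide)
      · rw [h7]
      · have h8 := thr_inj h7
        have h9 := hpre (thr f') hh2 (2 ^ f')
          (by have := Nat.pow_lt_pow_right (a := 2) (by norm_num) h7; omega)
        rw [h8.1, h8.2] at h9
        exact absurd h9 (by decide)
    · rw [h6 _ (by positivity)] at h5
      unfold thr at h5
      rw [if_pos (dvd_refl _)] at h5
      exact absurd h5 (by decide)
  · exact h

theorem finite_D_one : (D cc 1).Finite := by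
  refine Set.Finite.of_injOn (f := fun (g : ℕ → Fin 2) => g 0) (t := Set.univ)
    (fun _ _ => mem_univ _) ?_ Set.finite_univ
  intro g hg h hh he
  funext x
  rcases Nat.eq_zero_or_pos x with rfl | hx
  · exact he
  · rw [D_one hg x hx, D_one hh x hx]

theorem rank_two : D cc 2 = ∅ := by
  rw [D_succ, eq_empty_iff_forall_notMem]
  intro g hg
  have h1 := infinite_of_acc (τ := []) hg (fun i x hx => by simp at hx)
  exact h1 (finite_D_one.subset inter_subset_left)

/-- trees shattered by limits are shattered by numbers -/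
theorem lit_of_interval (d : ℕ) : ∀ a m : ℕ, Pool.Agent.Y579.ST.Lit cc d fun y =>
    0 < y ∧ m.factorial ∣ y ∧ ∃ f, a ≤ f ∧ f < a + 2 ^ d ∧ ∀ x < m, cc (x + y) = thr f x := by
  induction d with
  | zero =>
    intro a m
    obtain ⟨Y, h1, h2, h3⟩ := thr_mem a (m + 1)
    obtain ⟨s, hs⟩ := List.exists_mem_of_length_pos (show 0 < Y.length by omega)
    refine ⟨s, (h2 s hs).1, dvd_trans (Nat.factorial_dvd_factorial (Nat.le_succ m)) (h2 s hs).2,
      a, le_rfl, by simp, fun x hx => ?_⟩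
    have := h3 [s] (List.singleton_sublist.2 hs) (by simp) x (by omega)
    simpa using this
  | succ d ih =>
    intro a m
    obtain ⟨b, hb⟩ : ∃ b, b = a + 2 ^ d := ⟨_, rfl⟩
    have h2d : 0 < 2 ^ d := by positivity
    obtain ⟨x0, hx0⟩ : ∃ x0, x0 = 2 ^ (b - 1) := ⟨_, rfl⟩
    have hx0' : 0 < x0 := by rw [hx0]; positivity
    have hB : ∀ y, 0 < y → (max m (max (3 ^ x0) (x0 + 1))).factorial ∣ y →
        m.factorial ∣ y ∧ Pool.Agent.Y579.ST.Beyond x0 y := by
      intro y hy hy2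
      refine ⟨dvd_trans (Nat.factorial_dvd_factorial (le_max_left _ _)) hy2, hx0', hy, x0,
        Nat.lt_pow_self (by norm_num), dvd_trans (Nat.dvd_factorial (by positivity) ?_) hy2⟩
      exact (le_max_left _ _).trans (le_max_right _ _)
    refine ⟨x0, 0, 1, by decide, ?_, ?_⟩
    · refine Pool.Agent.Y579.ST.lit_mono ?_ (ih a (max m (max (3 ^ x0) (x0 + 1))))
      rintro y ⟨h4, h5, f, h6, h7, h8⟩
      obtain ⟨h9, h10⟩ := hB y h4 h5
      refine ⟨⟨h4, h9, f, h6, by rw [pow_succ]; omega, fun x hx => h8 x (by omega)⟩, h10, ?_⟩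
      rw [h8 x0 (by omega)]
      unfold thr
      rw [if_pos]
      rw [hx0]
      exact pow_dvd_pow 2 (by omega)
    · refine Pool.Agent.Y579.ST.lit_mono ?_ (ih b (max m (max (3 ^ x0) (x0 + 1))))
      rintro y ⟨h4, h5, f, h6, h7, h8⟩
      obtain ⟨h9, h10⟩ := hB y h4 h5
      refine ⟨⟨h4, h9, f, by omega, by rw [pow_succ]; omega, fun x hx => h8 x (by omega)⟩, h10, ?_⟩
      rw [h8 x0 (by omega), hx0]
      exact (thr_inj (show b - 1 < f by omega)).2

theorem lit_all (d : ℕ) : Pool.Agent.Y579.ST.Lit cc d fun _ => True :=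
  Pool.Agent.Y579.ST.lit_mono (fun _ _ => trivial) (lit_of_interval d 0 0)

end Pool.Agent.X224.HR
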