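import Pool.Agent.X224.HR.Arith
import Pool.Agent.Y579.ST.GREEDY
import Pool.Agent.Y579.ST.LIT
import Pool.Agent.Y545.HM.St

/-! Colourings whose limits have finite Cantor-Bendixson rank. -/

set_option autoImplicit false

namespace Pool.Agent.X224.HR

open Filter Topology Set Pool.Agent.Y579.HM Pool.Agent.TH747.HT Encodable
open Pool.Agent.Helper446.Oracle Pool.Agent.Helper446
open Pool.Agent.Y545.HM (join dec_left dec_right Dec Gr Idl Jmp HTI Ix Qt evs Dd)

variable {k : ℕ} {c : ℕ → Fin k}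

theorem cdiv2 {α : Type} [Primcodable α] {f : α → ℕ} (hf : Computable f) :
    Computable fun a => f a / 2 :=
  Primrec.nat_div.to_comp.comp hf (Computable.const 2)

theorem levN_join {Z A : Set ℕ} {n : ℕ} {q : ℕ → Prop} (hA : LevN Z n fun x => x ∈ A)
    (hq : LevN Z n q) : LevN Z n fun x => x ∈ join A {x | q x} := by
  have h1 : Lev Z n fun x : ℕ => x % 2 = 0 := lev_eq (by fun_prop) (by fun_prop)
  have h2 : Lev Z n fun x : ℕ => x % 2 = 1 := lev_eq (by fun_prop) (by fun_prop)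
  have hd : Computable fun x : ℕ => x / 2 := cdiv2 Computable.id
  refine lev_iff.1 (((h1.and ((lev_iff.2 hA).subst hd)).or
    (h2.and ((lev_iff.2 hq).subst hd))).congr fun x => ?_)
  constructor
  · rintro (⟨h3, h4⟩ | ⟨h3, h4⟩)
    · exact Or.inl ⟨x / 2, h4, by omega⟩
    · exact Or.inr ⟨x / 2, h4, by omega⟩
  · rintro (⟨a, ha, h3⟩ | ⟨a, ha, h3⟩)
    · refine Or.inl ⟨by omega, ?_⟩
      have : x / 2 = a := by omega
      rwa [this]
    · refine Or.inr ⟨by omega, ?_⟩
      have : x / 2 = a := by omega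
      rwa [this]

theorem gr_graph (c : ℕ → Fin k) : REIn (graph c) fun p : ℕ × Fin k => c p.1 = p.2 := by
  have h := REIn.mem (A := graph c) (f := fun p : ℕ × Fin k => Nat.pair p.1 (p.2 : ℕ))
    (Computable₂.comp Primrec₂.natPair.to_comp Computable.fst
      (Primrec.fin_val.to_comp.comp Computable.snd))
  refine h.of_eq fun p => ?_
  show (c (Nat.pair p.1 (p.2 : ℕ)).unpair.1 : ℕ) = (Nat.pair p.1 (p.2 : ℕ)).unpair.2 ↔ _
  rw [Nat.unpair_pair]
  exact Fin.ext_iff.symm

theorem upper {r : ℕ} (hr : D c r = ∅) : ∃ Z X : Set ℕ, LevN (graph c) (3 * r + 1) (· ∈ Z) ∧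
    Pool.Agent.Y545.HM.St.Solution c X ∧ Dec Z X := by
  classical
  obtain ⟨U, hU, -⟩ := exists_idem (X := {n | 0 < n}) (Set.infinite_of_forall_exists_gt
    fun n => ⟨n + 1, Nat.succ_pos n, Nat.lt_succ_self n⟩) (fun x hx => hx)
  obtain ⟨g, hg⟩ := Pool.Agent.Y579.ST.exists_limit U c
  have h0 : g ∈ D c 0 := limit_mem hU hg
  have hex : ∃ j, g ∉ D c j := ⟨r, by rw [hr]; exact notMem_empty g⟩
  obtain ⟨j, hj⟩ : ∃ j, Nat.find hex = j + 1 := by
    refine Nat.exists_eq_succ_of_ne_zero fun h => ?_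
    have := Nat.find_spec hex
    rw [h] at this
    exact this h0
  have hj1 : g ∉ D c (j + 1) := by rw [← hj]; exact Nat.find_spec hex
  have hj2 : g ∈ D c j := by
    by_contra h
    have := Nat.find_min' hex h
    omega
  have hjr : j + 1 ≤ r := by
    rw [← hj]
    exact Nat.find_min' hex (by rw [hr]; exact notMem_empty g)
  obtain ⟨q, hq1, hq2⟩ := (lev_point hj2 hj1).mono (show 3 * j + 4 ≤ 3 * r + 1 by omega)
  have hgc : LevN (graph c) (3 * r + 1) fun x => x ∈ graph c :=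
    (LevN.orc Computable.id).mono (Nat.zero_le _)
  obtain ⟨Z, hZ⟩ : ∃ Z, Z = join (graph c) {x | q x} := ⟨_, rfl⟩
  have hZ1 : REIn Z fun p : ℕ × Fin k => c p.1 = p.2 := by
    rw [hZ]
    exact Pool.Agent.Y545.HM.re_lift (gr_graph c) dec_left
  have hZ2 : REIn Z fun p : ℕ × Fin k => g p.1 = p.2 := by
    have h1 : REIn {x | q x} fun p : ℕ × Fin k => g p.1 = p.2 := by
      refine (REIn.mem (A := {x | q x}) (f := fun p : ℕ × Fin k => encode p)
        Computable.encode).of_eq fun p => ?_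
      exact (hq2 p).symm
    rw [hZ]
    exact Pool.Agent.Y545.HM.re_lift h1 dec_right
  have key : ∀ s, g s = g 0 → ∀ᶠ y in (U : Filter ℕ), c (s + y) = g 0 ∧ g (s + y) = g 0 := by
    intro s hs
    have h1 : ∀ᶠ y in (U : Filter ℕ), c (s + y) = g 0 := by
      filter_upwards [hg s] with y hy
      rw [hy, hs]
    have h2 := (hU.1 (fun n => c (s + n) = g 0)).2 h1
    filter_upwards [h1, h2] with y hy1 hy2
    refine ⟨hy1, ?_⟩
    obtain ⟨m, hm1, hm2⟩ := (hy2.and (hg (s + y))).exists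
    rw [← hm2, ← hm1, add_assoc]
  obtain ⟨X, hX, hX1, hX2⟩ := Pool.Agent.Y579.ST.t_GREEDY k c g (g 0) Z hZ1 hZ2 (by
    intro S N hS
    have h3 : ∀ᶠ y in (U : Filter ℕ), ∀ s ∈ S, c (s + y) = g 0 ∧ g (s + y) = g 0 :=
      (Filter.eventually_all_finset S).2 fun s hs => key s (hS s hs).2
    obtain ⟨y, hy1, hy2, hy3⟩ := ((hU.2.and (hU.dvd (N := N + 1) (by positivity))).and
      ((key 0 rfl).and h3)).exists
    refine ⟨y, ?_, ?_, ?_, hy3⟩
    · have h4 := Nat.le_of_dvd hy1.1 hy1.2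
      omega
    · simpa using hy2.1
    · simpa using hy2.2)
  refine ⟨Z, X, ?_, ⟨hX.1, hX.2.1, g 0, hX.2.2⟩, hX1, hX2⟩
  rw [hZ]
  exact levN_join hgc hq1

theorem lev_ideal {I : Set (Set ℕ)} (hI : Idl I) (hJ : Jmp I) {Z : Set ℕ} (hZ : Z ∈ I)
    {n : ℕ} {p : ℕ → Prop} (h : LevN Z n p) : {x | p x} ∈ I := by
  induction h with
  | comp hp =>
    refine hI.2.1 Z hZ _ ⟨?_, ?_⟩
    · exact REIn.of_re (RE.eq hp (Computable.const true))
    · exact (REIn.of_re (RE.eq hp (Computable.const false))).of_eq fun x => by simp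
  | orc hg => exact hI.2.1 Z hZ _ ⟨REIn.mem hg, REIn.not_mem hg⟩
  | @not n p _ ih =>
    refine hI.2.1 _ ih _ ⟨REIn.not_mem Computable.id, ?_⟩
    exact (REIn.mem (A := {x | p x}) Computable.id).of_eq fun x => by simp
  | @and n p q _ _ ih1 ih2 =>
    refine hI.2.1 _ (hI.2.2 _ ih1 _ ih2) _ ⟨REIn.and dec_left.1 dec_right.1, ?_⟩
    refine (REIn.or dec_left.2 dec_right.2).of_eq fun x => ?_
    simp only [mem_ofPred_eq]
    tauto
  | @ex n p _ ih =>
    refine hJ _ ih _ ?_
    have h1 : REIn {x | p x} fun x : ℕ => ∃ j : ℕ, Nat.pair x j ∈ {x | p x} :=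
      REIn.ex (S := fun (x j : ℕ) => Nat.pair x j ∈ {x | p x})
        (REIn.mem (f := fun x : ℕ × ℕ => Nat.pair x.1 x.2) Primrec₂.natPair.to_comp)
    exact h1

theorem graph_dec {A : Set ℕ} (hc : Gr A c) : Dec A (graph c) := by
  have h0 : Computable fun x : ℕ × Fin k => (x.2 : ℕ) := Primrec.fin_val.to_comp.comp Computable.snd
  have h1 : Computable fun x : ℕ × Fin k => x.1.unpair.1 :=
    (Primrec.fst.comp (Primrec.unpair.comp Primrec.fst)).to_comp
  have h2 : Computable fun x : ℕ × Fin k => x.1.unpair.2 :=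
    (Primrec.snd.comp (Primrec.unpair.comp Primrec.fst)).to_comp
  have h3 : REIn A fun x : ℕ × Fin k => c x.1.unpair.1 = x.2 :=
    REIn.comp hc (f := fun x : ℕ × Fin k => (x.1.unpair.1, x.2)) (h1.pair Computable.snd)
  constructor
  · refine (REIn.ex (S := fun (n : ℕ) (i : Fin k) => c n.unpair.1 = i ∧ (i : ℕ) = n.unpair.2)
      (REIn.and h3 (REIn.of_re (RE.eq h0 h2)))).of_eq fun n => ?_
    simp [graph]
  · refine (REIn.ex (S := fun (n : ℕ) (i : Fin k) => c n.unpair.1 = i ∧ (i : ℕ) ≠ n.unpair.2)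
      (REIn.and h3 (REIn.of_re (RE.ne h0 h2)))).of_eq fun n => ?_
    simp [graph]

theorem D_empty_succ {r : ℕ} (h : D c r = ∅) : D c (r + 1) = ∅ :=
  subset_eq_empty (D_anti c r) h

theorem D_empty_mono {r s : ℕ} (h : D c r = ∅) (hrs : r ≤ s) : D c s = ∅ := by
  induction s, hrs using Nat.le_induction with
  | base => exact h
  | succ s _ ih => exact D_empty_succ ih

/-- finitely many eventual classes: finitely many limits -/
theorem finite_of_ix {W : ℕ} (h : Ix c W) : (IPLimits c).Finite := by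
  have hfin : Finite (Qt c) := Pool.Agent.Y545.HM.finite_of_ix h
  have key : ∀ g ∈ IPLimits c, ∀ x y, (evs c) x y → g x = g y := by
    rintro g hg x y ⟨m, hm⟩
    obtain ⟨Y, h1, h2, h3⟩ := hg (max (max x y + 1) (2 ^ m))
    have hpos : 0 < max (max x y + 1) (2 ^ m) := lt_of_lt_of_le (by positivity) (le_max_right _ _)
    rw [← h1] at hpos
    obtain ⟨s, hs⟩ := List.exists_mem_of_length_pos hpos
    obtain ⟨hs1, hs2⟩ := h2 s hs
    have h4 : 2 ^ m ∣ s := dvd_trans (Nat.dvd_factorial (by positivity) (le_max_right _ _)) hs2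
    obtain ⟨t, rfl⟩ := h4
    have ht : 1 ≤ t := Nat.pos_of_mul_pos_left hs1
    have h5 := h3 [2 ^ m * t] (List.singleton_sublist.2 hs) (by simp)
    have h6 := h5 x (by omega)
    have h7 := h5 y (by omega)
    rw [List.sum_singleton] at h6 h7
    rw [← h6, ← h7]
    exact (Pool.Agent.Y545.HM.ndd_iff.1 hm) t ht
  refine Set.Finite.of_injOn (f := fun (g : ℕ → Fin k) (q : Qt c) => g q.out)
    (t := Set.univ) (fun _ _ => mem_univ _) ?_ Set.finite_univ
  intro g hg h hh he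
  funext x
  have h1 : (evs c) (Quotient.out (Quotient.mk (evs c) x)) x := Quotient.mk_out (s := evs c) x
  rw [← key g hg _ _ h1, ← key h hh _ _ h1]
  exact congrFun he _

theorem rank_of_ix {W : ℕ} (h : Ix c W) : D c 1 = ∅ := by
  rw [D_succ, eq_empty_iff_forall_notMem]
  intro g hg
  have h1 := infinite_of_acc (τ := []) hg (fun i x hx => by simp at hx)
  exact h1 ((finite_of_ix h).subset inter_subset_left)

/-- finite Littlestone dimension -/
theorem lit_of_mem {d : ℕ} : ∀ {g : ℕ → Fin k}, g ∈ D c d → ∀ m : ℕ,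
    Pool.Agent.Y579.ST.Lit c d fun y => 0 < y ∧ m.factorial ∣ y ∧ ∀ x < m, c (x + y) = g x := by
  induction d with
  | zero =>
    intro g hg m
    obtain ⟨Y, h1, h2, h3⟩ := hg (m + 1)
    obtain ⟨s, hs⟩ := List.exists_mem_of_length_pos (show 0 < Y.length by omega)
    refine ⟨s, (h2 s hs).1, dvd_trans (Nat.factorial_dvd_factorial (Nat.le_succ m)) (h2 s hs).2,
      fun x hx => ?_⟩
    have := h3 [s] (List.singleton_sublist.2 hs) (by simp) x (by omega)
    simpa using this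
  | succ d ih =>
    intro g hg m
    obtain ⟨τ, hτ⟩ : ∃ τ : List (Fin k), τ = (List.range (m + 1)).map g := ⟨_, rfl⟩
    have hpre : ∀ h : ℕ → Fin k, Pre τ h → ∀ i < m + 1, h i = g i := by
      intro h hh i hi
      rw [hτ] at hh
      exact hh i _ (by rw [List.getElem?_map, List.getElem?_range hi]; rfl)
    have hτg : Pre τ g := by
      rw [hτ]
      intro i x hx
      obtain ⟨h3, h4⟩ := List.getElem?_eq_some_iff.1 hx
      simpa using h4
    have hg' : g ∈ derivedSet (D c d) := by rw [← D_succ]; exact hg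
    obtain ⟨h, ⟨hh1, hh2⟩, hne⟩ := (infinite_of_acc hg' hτg).exists_notMem_finset {g}
    rw [Finset.mem_singleton] at hne
    obtain ⟨x0, hx0⟩ := Function.ne_iff.1 hne
    have hx1 : m + 1 ≤ x0 := by
      by_contra hcon
      exact hx0 (hpre h hh2 x0 (by omega))
    have hB : ∀ y, 0 < y → (max m (max (3 ^ x0) (x0 + 1))).factorial ∣ y →
        m.factorial ∣ y ∧ Pool.Agent.Y579.ST.Beyond x0 y := by
      intro y hy hy2
      refine ⟨dvd_trans (Nat.factorial_dvd_factorial (le_max_left _ _)) hy2, by omega, hy, x0,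
        Nat.lt_pow_self (by norm_num), dvd_trans (Nat.dvd_factorial (by positivity) ?_) hy2⟩
      exact (le_max_left _ _).trans (le_max_right _ _)
    refine ⟨x0, g x0, h x0, fun he => hx0 he.symm, ?_, ?_⟩
    · refine Pool.Agent.Y579.ST.lit_mono ?_ (ih (D_anti c d hg) (max m (max (3 ^ x0) (x0 + 1))))
      rintro y ⟨h4, h5, h6⟩
      obtain ⟨h7, h8⟩ := hB y h4 h5
      exact ⟨⟨h4, h7, fun x hx => h6 x (by omega)⟩, h8, h6 x0 (by omega)⟩
    · refine Pool.Agent.Y579.ST.lit_mono ?_ (ih hh1 (max m (max (3 ^ x0) (x0 + 1))))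
      rintro y ⟨h4, h5, h6⟩
      obtain ⟨h7, h8⟩ := hB y h4 h5
      refine ⟨⟨h4, h7, fun x hx => ?_⟩, h8, h6 x0 (by omega)⟩
      rw [h6 x (by omega), hpre h hh2 x (by omega)]

theorem rank_of_lit {d : ℕ} (h : ¬ Pool.Agent.Y579.ST.Lit c d fun _ => True) : D c d = ∅ := by
  rw [eq_empty_iff_forall_notMem]
  intro g hg
  exact h (Pool.Agent.Y579.ST.lit_mono (fun _ _ => trivial) (lit_of_mem hg 0))

end Pool.Agent.X224.HR
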