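import Pool.Agent.X224.HR.Example

/-! Recurrent limits of finite rank. -/

set_option autoImplicit false

namespace Pool.Agent.X224.HR

open Filter Topology Set Pool.Agent.Y579.HM Pool.Agent.TH747.HT Encodable
open Pool.Agent.Helper446.Oracle Pool.Agent.Helper446
open Pool.Agent.Y545.HM (join dec_left dec_right Dec Gr Idl Jmp HTI Ix Qt evs Dd)

variable {k : ℕ} {c g : ℕ → Fin k}

/-- recurrence -/
def Rcr (c g : ℕ → Fin k) : Prop :=
  ∀ m : ℕ, ∃ y : ℕ, 0 < y ∧ m.factorial ∣ y ∧ ∀ x < m, c (x + y) = g x ∧ g (x + y) = g x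

theorem rcr_limit (h : Rcr c g) : g ∈ IPLimits c := by
  intro m
  have main : ∀ n : ℕ, ∃ Y : List ℕ, Y.length = n ∧ (∀ y ∈ Y, 0 < y ∧ m.factorial ∣ y) ∧
      ∀ l : List ℕ, l.Sublist Y → ∀ x < m, (l ≠ [] → c (x + l.sum) = g x) ∧
        g (x + l.sum) = g x := by
    intro n
    induction n with
    | zero =>
      refine ⟨[], rfl, by simp, fun l hl x hx => ?_⟩
      rw [List.sublist_nil.1 hl]
      simp
    | succ n ih =>
      obtain ⟨Y, h1, h2, h3⟩ := ih
      obtain ⟨z, hz1, hz2, hz3⟩ := h (m + Y.sum)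
      refine ⟨z :: Y, by simp [h1], ?_, ?_⟩
      · intro y hy
        rcases List.mem_cons.1 hy with rfl | hy
        · exact ⟨hz1, dvd_trans (Nat.factorial_dvd_factorial (Nat.le_add_right _ _)) hz2⟩
        · exact h2 y hy
      · intro l hl x hx
        rcases List.sublist_cons_iff.1 hl with h7 | ⟨l', rfl, h7⟩
        · exact h3 l h7 x hx
        · have h8 : l'.sum ≤ Y.sum := h7.sum_le_sum (fun _ _ => Nat.zero_le _)
          have h5 := hz3 (x + l'.sum) (by omega)
          have h6 := (h3 l' h7 x hx).2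
          have e : x + (z :: l').sum = (x + l'.sum) + z := by
            rw [List.sum_cons]; ring
          rw [e]
          refine ⟨fun _ => ?_, ?_⟩
          · rw [h5.1, h6]
          · rw [h5.2, h6]
  obtain ⟨Y, h1, h2, h3⟩ := main m
  exact ⟨Y, h1, h2, fun l hl hne x hx => (h3 l hl x hx).1 hne⟩

theorem exists_rcr (c : ℕ → Fin k) : ∃ g, Rcr c g := by
  obtain ⟨U, hU, -⟩ := exists_idem (X := {n | 0 < n}) (Set.infinite_of_forall_exists_gt
    fun n => ⟨n + 1, Nat.succ_pos n, Nat.lt_succ_self n⟩) (fun x hx => hx)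
  obtain ⟨g, hg⟩ := Pool.Agent.Y579.ST.exists_limit U c
  have key : ∀ s, ∀ᶠ y in (U : Filter ℕ), c (s + y) = g s ∧ g (s + y) = g s := by
    intro s
    have h2 := (hU.1 (fun n => c (s + n) = g s)).2 (hg s)
    filter_upwards [hg s, h2] with y hy1 hy2
    refine ⟨hy1, ?_⟩
    obtain ⟨m, hm1, hm2⟩ := (hy2.and (hg (s + y))).exists
    rw [← hm2, ← hm1, add_assoc]
  refine ⟨g, fun m => ?_⟩
  have h4 : ∀ᶠ z in (U : Filter ℕ), ∀ s ∈ Finset.range m, c (s + z) = g s ∧ g (s + z) = g s :=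
    (Filter.eventually_all_finset _).2 fun s _ => key _
  obtain ⟨z, hz1, hz2⟩ := ((hU.2.and (hU.dvd m.factorial_pos)).and h4).exists
  exact ⟨z, hz1.1, hz1.2, fun x hx => hz2 x (Finset.mem_range.2 hx)⟩

theorem upper_rcr {r : ℕ} (hrec : Rcr c g) (hr : g ∉ D c r) :
    ∃ Z X : Set ℕ, LevN (graph c) (3 * r + 1) (· ∈ Z) ∧
      Pool.Agent.Y545.HM.St.Solution c X ∧ Dec Z X := by
  classical
  have h0 : g ∈ D c 0 := rcr_limit hrec
  have hex : ∃ j, g ∉ D c j := ⟨r, hr⟩
  obtain ⟨j, hj⟩ : ∃ j, Nat.find hex = j + 1 := by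
    refine Nat.exists_eq_succ_of_ne_zero fun h => ?_
    have := Nat.find_spec hex
    rw [h] at this
    exact this h0
  have hj1 : g ∉ D c (j + 1) := by rw [← hj]; exact Nat.find_spec hex
  have hj2 : g ∈ D c j := by
    by_contra h
    have := Nat.find_min' hex h
    omega
  have hjr : j + 1 ≤ r := by
    rw [← hj]
    exact Nat.find_min' hex hr
  obtain ⟨q, hq1, hq2⟩ := (lev_point hj2 hj1).mono (show 3 * j + 4 ≤ 3 * r + 1 by omega)
  have hgc : LevN (graph c) (3 * r + 1) fun x => x ∈ graph c :=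
    (LevN.orc Computable.id).mono (Nat.zero_le _)
  obtain ⟨Z, hZ⟩ : ∃ Z, Z = join (graph c) {x | q x} := ⟨_, rfl⟩
  have hZ1 : REIn Z fun p : ℕ × Fin k => c p.1 = p.2 := by
    rw [hZ]
    exact Pool.Agent.Y545.HM.re_lift (gr_graph c) dec_left
  have hZ2 : REIn Z fun p : ℕ × Fin k => g p.1 = p.2 := by
    have h1 : REIn {x | q x} fun p : ℕ × Fin k => g p.1 = p.2 := by
      refine (REIn.mem (A := {x | q x}) (f := fun p : ℕ × Fin k => encode p)
        Computable.encode).of_eq fun p => ?_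
      exact (hq2 p).symm
    rw [hZ]
    exact Pool.Agent.Y545.HM.re_lift h1 dec_right
  obtain ⟨X, hX, hX1, hX2⟩ := Pool.Agent.Y579.ST.t_GREEDY k c g (g 0) Z hZ1 hZ2 (by
    intro S N hS
    obtain ⟨y, hy1, hy2, hy3⟩ := hrec (N + S.sup id + 1)
    have h4 := Nat.le_of_dvd hy1 hy2
    have h5 := Nat.self_le_factorial (N + S.sup id + 1)
    have h6 := hy3 0 (by omega)
    simp only [zero_add] at h6
    refine ⟨y, by omega, h6.1, h6.2, fun s hs => ?_⟩
    have h7 : s ≤ S.sup id := Finset.le_sup (f := id) hs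
    have h8 := hy3 s (by omega)
    rw [h8.1, h8.2, (hS s hs).2]
    exact ⟨rfl, rfl⟩)
  refine ⟨Z, X, ?_, ⟨hX.1, hX.2.1, g 0, hX.2.2⟩, hX1, hX2⟩
  rw [hZ]
  exact levN_join hgc hq1

theorem pr_pow : Primrec fun x : ℕ × ℕ => x.1 ^ x.2 := by
  have h : Primrec fun x : ℕ × ℕ => (Nat.rec (motive := fun _ => ℕ) 1
      (fun _ r => r * x.1) x.2 : ℕ) := by
    refine Primrec.nat_rec' (f := fun x : ℕ × ℕ => x.2) (g := fun _ => 1)
      (h := fun x p => p.2 * x.1) Primrec.snd (Primrec.const 1) ?_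
    exact Primrec.nat_mul.comp (Primrec.snd.comp Primrec.snd) (Primrec.fst.comp Primrec.fst)
  refine h.of_eq fun x => ?_
  obtain ⟨a, b⟩ := x
  show (Nat.rec (motive := fun _ => ℕ) 1 (fun _ r => r * a) b : ℕ) = a ^ b
  induction b with
  | zero => rfl
  | succ n ih => rw [pow_succ, ← ih]

theorem pr_log : Primrec fun z : ℕ => Nat.log 2 z := by
  have h : Primrec fun z : ℕ => Nat.findGreatest (fun e => 2 ^ e ≤ z) z := by
    refine Primrec.nat_findGreatest (f := fun z => z) (p := fun z e => 2 ^ e ≤ z) Primrec.id ?_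
    exact Primrec.nat_le.comp (pr_pow.comp ((Primrec.const 2).pair Primrec.snd)) Primrec.fst
  refine h.of_eq fun z => ?_
  rcases Nat.eq_zero_or_pos z with rfl | hz
  · simp
  · refine le_antisymm ?_ ?_
    · have h1 : (2 : ℕ) ^ Nat.findGreatest (fun e => 2 ^ e ≤ z) z ≤ z :=
        Nat.findGreatest_spec (P := fun e => 2 ^ e ≤ z) (Nat.zero_le z)
          (show 2 ^ 0 ≤ z by rw [pow_zero]; exact hz)
      exact Nat.le_log_of_pow_le (by norm_num) h1
    · exact Nat.le_findGreatest (Nat.log_le_self 2 z) (Nat.pow_log_le_self 2 hz.ne')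

theorem computable_cc : Computable cc := by
  refine Primrec.to_comp ?_
  have h1 : Primrec fun z : ℕ => 2 ^ (Nat.log 2 z).unpair.1 :=
    pr_pow.comp ((Primrec.const 2).pair (Primrec.fst.comp (Primrec.unpair.comp pr_log)))
  have h2 : PrimrecPred fun z : ℕ => z % 2 ^ (Nat.log 2 z).unpair.1 = 0 :=
    Primrec.eq.comp (Primrec.nat_mod.comp Primrec.id h1) (Primrec.const 0)
  have h3 : PrimrecPred fun z : ℕ => 2 ^ (Nat.log 2 z).unpair.1 ∣ z :=
    h2.of_eq fun z => (Nat.dvd_iff_mod_eq_zero).symm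
  exact Primrec.ite h3 (Primrec.const 0) (Primrec.const 1)

theorem not_rank_one : D cc 1 ≠ ∅ := by
  intro h
  obtain ⟨g, hg, -⟩ := acc_of_infinite (S := IPLimits cc) (τ := []) (by
    refine infinite_limits.mono fun g hg => ⟨hg, fun i x hx => by simp at hx⟩)
  have : g ∈ D cc 1 := hg
  rw [h] at this
  exact this

end Pool.Agent.X224.HR
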