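import Mathlib
import Pool.Agent.TH747.HT.Ultra

/-! Limits of a colouring along finite sums: topology. -/

set_option autoImplicit false

namespace Pool.Agent.X224.HR

open Filter Topology Set Pool.Agent.TH747.HT

variable {k : ℕ}

/-- limits along finite sums -/
def IPLimits (c : ℕ → Fin k) : Set (ℕ → Fin k) :=
  {g | ∀ m : ℕ, ∃ Y : List ℕ, Y.length = m ∧ (∀ y ∈ Y, 0 < y ∧ m.factorial ∣ y) ∧
    ∀ l : List ℕ, l.Sublist Y → l ≠ [] → ∀ x < m, c (x + l.sum) = g x}

/-- the derived sets -/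
def D (c : ℕ → Fin k) (d : ℕ) : Set (ℕ → Fin k) := derivedSet^[d] (IPLimits c)

theorem D_zero (c : ℕ → Fin k) : D c 0 = IPLimits c := rfl

theorem D_succ (c : ℕ → Fin k) (d : ℕ) : D c (d + 1) = derivedSet (D c d) :=
  Function.iterate_succ_apply' _ _ _

theorem isClosed_fin (m : ℕ) (T : Set (Fin m → Fin k)) :
    IsClopen {g : ℕ → Fin k | (fun i : Fin m => g i) ∈ T} := by
  have h : Continuous fun (g : ℕ → Fin k) (i : Fin m) => g i :=
    continuous_pi fun i => continuous_apply _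
  exact (isClopen_discrete T).preimage h

theorem isClosed_IP (c : ℕ → Fin k) : IsClosed (IPLimits c) := by
  have e : IPLimits c = ⋂ m : ℕ, {g : ℕ → Fin k | (fun i : Fin m => g i) ∈
      {h : Fin m → Fin k | ∃ Y : List ℕ, Y.length = m ∧ (∀ y ∈ Y, 0 < y ∧ m.factorial ∣ y) ∧
        ∀ l : List ℕ, l.Sublist Y → l ≠ [] → ∀ x : Fin m, c (x + l.sum) = h x}} := by
    ext g
    simp only [IPLimits, mem_ofPred_eq, mem_iInter]
    refine forall_congr' fun m => ?_
    constructor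
    · rintro ⟨Y, h1, h2, h3⟩
      exact ⟨Y, h1, h2, fun l hl hne x => h3 l hl hne x x.2⟩
    · rintro ⟨Y, h1, h2, h3⟩
      exact ⟨Y, h1, h2, fun l hl hne x hx => h3 l hl hne ⟨x, hx⟩⟩
  rw [e]
  exact isClosed_iInter fun m => (isClosed_fin m _).1

theorem isClosed_D (c : ℕ → Fin k) (d : ℕ) : IsClosed (D c d) := by
  cases d with
  | zero => exact isClosed_IP c
  | succ d => rw [D_succ]; exact isClosed_derivedSet _

theorem D_anti (c : ℕ → Fin k) (d : ℕ) : D c (d + 1) ⊆ D c d := by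
  rw [D_succ]
  exact (isClosed_iff_derivedSet_subset _).1 (isClosed_D c d)

/-- `τ` is an initial segment of `g` -/
def Pre (τ : List (Fin k)) (g : ℕ → Fin k) : Prop := ∀ i x, τ[i]? = some x → g i = x

theorem pre_iff (τ : List (Fin k)) (g : ℕ → Fin k) :
    Pre τ g ↔ ∀ i : Fin τ.length, g i = τ[i] := by
  constructor
  · intro h i
    exact h i _ (List.getElem?_eq_getElem i.2)
  · intro h i x hx
    obtain ⟨hi, rfl⟩ := List.getElem?_eq_some_iff.1 hx
    exact h ⟨i, hi⟩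

theorem isClopen_pre (τ : List (Fin k)) : IsClopen {g : ℕ → Fin k | Pre τ g} := by
  have e : {g : ℕ → Fin k | Pre τ g} = {g : ℕ → Fin k | (fun i : Fin τ.length => g i) ∈
      {h : Fin τ.length → Fin k | ∀ i, h i = τ[i]}} := by
    ext g
    exact pre_iff τ g
  rw [e]
  exact isClosed_fin _ _

theorem infinite_of_acc {S : Set (ℕ → Fin k)} {g : ℕ → Fin k} {τ : List (Fin k)}
    (hg : g ∈ derivedSet S) (hτ : Pre τ g) : (S ∩ {h | Pre τ h}).Infinite := by
  intro hfin
  have h1 : AccPt g (𝓟 S) := hg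
  rw [accPt_iff_nhds] at h1
  have h2 : ((S ∩ {h | Pre τ h}) \ {g}).Finite := hfin.subset sdiff_subset
  obtain ⟨y, ⟨⟨hy1, hy2⟩, hy3⟩, hy4⟩ := h1 ({h | Pre τ h} ∩ ((S ∩ {h | Pre τ h}) \ {g})ᶜ)
    (inter_mem ((isClopen_pre τ).2.mem_nhds hτ) (h2.isClosed.isOpen_compl.mem_nhds
      fun h => h.2 rfl))
  exact hy2 ⟨⟨hy3, hy1⟩, hy4⟩

theorem acc_of_infinite {S : Set (ℕ → Fin k)} {τ : List (Fin k)}
    (h : (S ∩ {h | Pre τ h}).Infinite) : ∃ g ∈ derivedSet S, Pre τ g := by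
  obtain ⟨g, hg, hacc⟩ := h.exists_accPt_of_subset_isCompact
    (isClopen_pre τ).1.isCompact inter_subset_right
  exact ⟨g, hacc.mono (principal_mono.2 inter_subset_left), hg⟩

theorem isolated {S : Set (ℕ → Fin k)} {g : ℕ → Fin k} (hg : g ∉ derivedSet S) :
    ∃ m : ℕ, ∀ h ∈ S, (∀ i < m, h i = g i) → h = g := by
  have h1 : ¬ AccPt g (𝓟 S) := hg
  rw [accPt_iff_nhds] at h1
  push Not at h1
  obtain ⟨U, hU, h2⟩ := h1
  obtain ⟨t, ⟨x, n, rfl⟩, hgt, htU⟩ :=
    ((PiNat.isTopologicalBasis_cylinders (E := fun _ : ℕ => Fin k)).mem_nhds_iff).1 hU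
  refine ⟨n, fun h hS hh => h2 h ⟨htU ?_, hS⟩⟩
  rw [PiNat.mem_cylinder_iff] at hgt ⊢
  intro i hi
  rw [hh i hi, hgt i hi]

/-- the limit along an idempotent ultrafilter -/
theorem limit_mem {c g : ℕ → Fin k} {U : Ultrafilter ℕ} (hU : Idem U)
    (hg : ∀ x, ∀ᶠ y in (U : Filter ℕ), c (x + y) = g x) : g ∈ IPLimits c := by
  have key : ∀ s, ∀ᶠ y in (U : Filter ℕ), c (s + y) = g s ∧ g (s + y) = g s := by
    intro s
    have h2 := (hU.1 (fun n => c (s + n) = g s)).2 (hg s)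
    filter_upwards [hg s, h2] with y hy1 hy2
    refine ⟨hy1, ?_⟩
    obtain ⟨m, hm1, hm2⟩ := (hy2.and (hg (s + y))).exists
    rw [← hm2, ← hm1, add_assoc]
  intro m
  have main : ∀ n : ℕ, ∃ Y : List ℕ, Y.length = n ∧ (∀ y ∈ Y, 0 < y ∧ m.factorial ∣ y) ∧
      ∀ l : List ℕ, l.Sublist Y → ∀ x < m, (l ≠ [] → c (x + l.sum) = g x) ∧
        g (x + l.sum) = g x := by
    intro n
    induction n with
    | zero =>
      refine ⟨[], rfl, by simp, fun l hl x hx => ?_⟩
      rw [List.sublist_nil.1 hl]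
      simp
    | succ n ih =>
      obtain ⟨Y, h1, h2, h3⟩ := ih
      have h4 : ∀ᶠ z in (U : Filter ℕ), ∀ s ∈ (Y.sublists.toFinset ×ˢ Finset.range m),
          c ((s.2 + s.1.sum) + z) = g (s.2 + s.1.sum) ∧
            g ((s.2 + s.1.sum) + z) = g (s.2 + s.1.sum) :=
        (Filter.eventually_all_finset _).2 fun s _ => key _
      obtain ⟨z, hz1, hz3'⟩ := ((hU.2.and (hU.dvd m.factorial_pos)).and h4).exists
      · refine ⟨z :: Y, by simp [h1], ?_, ?_⟩
        · intro y hy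
          rcases List.mem_cons.1 hy with rfl | hy
          · exact hz1
          · exact h2 y hy
        · intro l hl x hx
          rcases List.sublist_cons_iff.1 hl with h7 | ⟨l', rfl, h7⟩
          · exact h3 l h7 x hx
          · have h5 := (hz3' (l', x) (by simp [h7, hx]))
            have h6 := (h3 l' h7 x hx).2
            have e : x + (z :: l').sum = (x + l'.sum) + z := by
              rw [List.sum_cons]; ring
            rw [e]
            refine ⟨fun _ => ?_, ?_⟩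
            · rw [h5.1, h6]
            · rw [h5.2, h6]
  obtain ⟨Y, h1, h2, h3⟩ := main m
  exact ⟨Y, h1, h2, fun l hl hne x hx => (h3 l hl x hx).1 hne⟩

end Pool.Agent.X224.HR
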